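import Pool.Agent.H49.Gap.Main

/-!
Every finite graph has a bipartite subgraph with at least half of its edges; the consequence of the
gap theorem for graphs without even cycles of length in `(m+1, 2m]`.
-/

namespace Pool.Agent.H49.Gap

open SimpleGraph

variable {V : Type*}

/-- The graph of the edges of `G` cut by `f`. -/
def cutGraph (G : SimpleGraph V) (f : V → Bool) : SimpleGraph V where
  Adj a b := G.Adj a b ∧ f a ≠ f b
  symm := ⟨fun _ _ h => ⟨h.1.symm, h.2.symm⟩⟩
  loopless := ⟨fun _ h => h.2 rfl⟩

theorem mem_cutGraph {G : SimpleGraph V} {f : V → Bool} {e : Sym2 V} :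
    e ∈ (cutGraph G f).edgeSet ↔ e ∈ G.edgeSet ∧ ¬ (e.map f).IsDiag := by
  induction e using Sym2.ind with
  | _ a b =>
    rw [SimpleGraph.mem_edgeSet, SimpleGraph.mem_edgeSet, Sym2.map_mk, Sym2.mk_isDiag_iff]
    rfl

/-- Half of all functions separate two given distinct points. -/
theorem two_mul_card_sep [Fintype V] [DecidableEq V] {a b : V} (hab : a ≠ b) :
    2 * (Finset.univ.filter (fun f : V → Bool => f a ≠ f b)).card =
      Fintype.card (V → Bool) := by
  have h1 : (Finset.univ.filter (fun f : V → Bool => f a ≠ f b)).card =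
      (Finset.univ.filter (fun f : V → Bool => ¬ (f a ≠ f b))).card := by
    refine Finset.card_bij (fun f _ => Function.update f a (! f a)) ?_ ?_ ?_
    · intro f hf
      rw [Finset.mem_filter] at hf ⊢
      refine ⟨Finset.mem_univ _, ?_⟩
      rw [Function.update_self, Function.update_of_ne hab.symm, not_not]
      have := hf.2
      revert this
      cases f a <;> cases f b <;> simp
    · intro f _ g _ hfg
      funext x
      by_cases hx : x = a
      · subst hx
        have := congrFun hfg x
        rw [Function.update_self, Function.update_self] at this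
        revert this
        cases f x <;> cases g x <;> simp
      · have := congrFun hfg x
        rwa [Function.update_of_ne hx, Function.update_of_ne hx] at this
    · intro g hg
      refine ⟨Function.update g a (! g a), ?_, ?_⟩
      · rw [Finset.mem_filter] at hg ⊢
        refine ⟨Finset.mem_univ _, ?_⟩
        rw [Function.update_self, Function.update_of_ne hab.symm]
        have := hg.2
        revert this
        cases g a <;> cases g b <;> simp
      · rw [Function.update_self, Function.update_idem, Bool.not_not, Function.update_eq_self]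
  have h2 := Finset.card_filter_add_card_filter_not (s := (Finset.univ : Finset (V → Bool)))
    (fun f : V → Bool => f a ≠ f b)
  rw [Finset.card_univ] at h2
  omega

/-- Every finite graph has a bipartite subgraph with at least half of its edges. -/
theorem exists_half [Finite V] (G : SimpleGraph V) :
    ∃ f : V → Bool, G.edgeSet.ncard ≤ 2 * (cutGraph G f).edgeSet.ncard := by
  classical
  have := Fintype.ofFinite V
  by_contra hne
  push Not at hne
  have hE : ∀ f : V → Bool, (cutGraph G f).edgeSet.ncard =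
      (G.edgeFinset.filter (fun e => ¬ (e.map f).IsDiag)).card := by
    intro f
    rw [← Set.ncard_coe_finset]
    congr 1
    ext e
    rw [mem_cutGraph, Finset.mem_coe, Finset.mem_filter, SimpleGraph.mem_edgeFinset]
  have hG : G.edgeSet.ncard = G.edgeFinset.card := by
    rw [← Set.ncard_coe_finset, SimpleGraph.coe_edgeFinset]
  have hsum : ∑ f : V → Bool, (G.edgeFinset.filter (fun e => ¬ (e.map f).IsDiag)).card =
      ∑ e ∈ G.edgeFinset, (Finset.univ.filter (fun f : V → Bool => ¬ (e.map f).IsDiag)).card := by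
    simp only [Finset.card_filter]
    rw [Finset.sum_comm]
  have hcount : ∀ e ∈ G.edgeFinset,
      2 * (Finset.univ.filter (fun f : V → Bool => ¬ (e.map f).IsDiag)).card =
        Fintype.card (V → Bool) := by
    intro e
    induction e using Sym2.ind with
    | _ a b =>
      intro he
      rw [SimpleGraph.mem_edgeFinset, SimpleGraph.mem_edgeSet] at he
      simp only [Sym2.map_mk, Sym2.mk_isDiag_iff]
      exact two_mul_card_sep he.ne
  have h1 : 2 * ∑ f : V → Bool, (cutGraph G f).edgeSet.ncard =
      G.edgeSet.ncard * Fintype.card (V → Bool) := by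
    rw [Finset.sum_congr rfl (fun f _ => hE f), hsum, Finset.mul_sum,
      Finset.sum_congr rfl hcount, Finset.sum_const, smul_eq_mul, hG]
  have h2 : ∑ f : V → Bool, 2 * (cutGraph G f).edgeSet.ncard <
      ∑ _f : V → Bool, G.edgeSet.ncard :=
    Finset.sum_lt_sum_of_nonempty ⟨fun _ => true, Finset.mem_univ _⟩ (fun f _ => hne f)
  rw [← Finset.mul_sum, h1, Finset.sum_const, Finset.card_univ, smul_eq_mul, mul_comm] at h2
  exact lt_irrefl _ h2

/-- Cycles of a graph cut by a two-colouring of the vertices are even. -/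
theorem even_of_cut {B : SimpleGraph V} {f : V → Bool} (hf : ∀ a b, B.Adj a b → f a ≠ f b)
    {v : V} (w : B.Walk v v) : Even w.length := by
  let c : B.Coloring Bool := SimpleGraph.Coloring.mk f (fun {a b} h => hf a b h)
  exact (c.even_length_iff_congr w).mpr Iff.rfl

/-- The even numbers `4, 6, …, 2s`. -/
def evens (s : ℕ) : Finset ℕ := (Finset.Icc 2 s).image (fun t => 2 * t)

theorem mem_evens {s ℓ : ℕ} : ℓ ∈ evens s ↔ Even ℓ ∧ 4 ≤ ℓ ∧ ℓ ≤ 2 * s := by
  unfold evens
  rw [Finset.mem_image]
  constructor
  · rintro ⟨t, ht, rfl⟩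
    rw [Finset.mem_Icc] at ht
    exact ⟨even_two_mul t, by omega, by omega⟩
  · rintro ⟨⟨t, rfl⟩, h1, h2⟩
    exact ⟨t, by rw [Finset.mem_Icc]; omega, by omega⟩

theorem card_evens {s : ℕ} (hs : 1 ≤ s) : (evens s).card + 1 = s := by
  unfold evens
  rw [Finset.card_image_of_injective _ (fun a b h => by
    have : 2 * a = 2 * b := h
    omega), Nat.card_Icc]
  omega

/-- Bipartite case of the gap theorem. -/
theorem gap_bip [Finite V] (G : SimpleGraph V) (s : ℕ) (hs : 1 ≤ s)
    (hG : ∀ (v : V) (w : G.Walk v v), w.IsCycle → Even w.length ∧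
      (w.length ≤ 2 * s ∨ 4 * s ≤ w.length + 1)) :
    ∃ H ≤ G, (∀ (v : V) (w : H.Walk v v), w.IsCycle → 4 * s ≤ w.length + 1) ∧
      G.edgeSet.ncard ≤ s * H.edgeSet.ncard := by
  obtain ⟨H, hHG, hH, hc⟩ := gap G (2 * s) (evens s) (fun t ht => (mem_evens.mp ht).2.2) (by
    intro v w hw
    obtain ⟨h1, h2⟩ := hG v w hw
    have h3 := hw.three_le_length
    rcases h2 with h2 | h2
    · left
      rw [mem_evens]
      obtain ⟨t, ht⟩ := h1
      exact ⟨⟨t, ht⟩, by omega, h2⟩
    · right
      omega)
  refine ⟨H, hHG, fun v w hw => ?_, ?_⟩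
  · have := hH v w hw
    omega
  · rwa [card_evens hs] at hc

/-- A finite graph without even cycles of length in `(m+1, 2m]` has a bipartite subgraph of girth
larger than `2m` with at least the fraction `1/(2⌊(m+1)/2⌋)` of its edges. -/
theorem longer_half [Finite V] (G : SimpleGraph V) (m : ℕ) (hm : 1 ≤ m)
    (hG : ∀ (v : V) (w : G.Walk v v), w.IsCycle → Even w.length → w.length ≤ m + 1 ∨
      2 * m < w.length) :
    ∃ H ≤ G, ∃ f : V → Bool, (∀ a b, H.Adj a b → f a ≠ f b) ∧
      (∀ (v : V) (w : H.Walk v v), w.IsCycle → Even w.length ∧ 2 * m < w.length) ∧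
      G.edgeSet.ncard ≤ 2 * ((m + 1) / 2) * H.edgeSet.ncard := by
  obtain ⟨f, hf⟩ := exists_half G
  have hcut : cutGraph G f ≤ G := fun a b h => h.1
  obtain ⟨s, hs⟩ : ∃ s, m = 2 * s ∨ m + 1 = 2 * s := by
    rcases Nat.even_or_odd' m with ⟨s, h | h⟩
    · exact ⟨s, Or.inl h⟩
    · exact ⟨s + 1, Or.inr (by omega)⟩
  have hs2 : (m + 1) / 2 = s := by omega
  have hev : ∀ (v : V) (w : (cutGraph G f).Walk v v), w.IsCycle → Even w.length := fun v w _ =>
    even_of_cut (B := cutGraph G f) (f := f) (fun a b h => h.2) w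
  have hlen : ∀ (v : V) (w : (cutGraph G f).Walk v v), w.IsCycle →
      w.length ≤ m + 1 ∨ 2 * m < w.length := by
    intro v w hw
    have h1 := hG v (w.mapLe hcut) ((Walk.isCycle_mapLe hcut).mpr hw)
    rw [Walk.length_mapLe] at h1
    exact h1 (hev v w hw)
  obtain ⟨H, hHG, hH, hc⟩ := gap_bip (cutGraph G f) s (by omega) (by
    intro v w hw
    refine ⟨hev v w hw, ?_⟩
    obtain ⟨t, ht⟩ := hev v w hw
    rcases hlen v w hw with h | h
    · left; omega
    · right; omega)
  refine ⟨H, hHG.trans hcut, f, fun a b h => (hHG h).2, fun v w hw => ?_, ?_⟩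
  · have h1 := hH v w hw
    have hw' := (Walk.isCycle_mapLe hHG).mpr hw
    have h2 := hev v (w.mapLe hHG) hw'
    have h3 := hlen v (w.mapLe hHG) hw'
    rw [Walk.length_mapLe] at h2 h3
    refine ⟨h2, ?_⟩
    obtain ⟨t, ht⟩ := h2
    rcases h3 with h | h
    · omega
    · exact h
  · rw [hs2]
    calc G.edgeSet.ncard ≤ 2 * (cutGraph G f).edgeSet.ncard := hf
      _ ≤ 2 * (s * H.edgeSet.ncard) := Nat.mul_le_mul_left 2 hc
      _ = 2 * s * H.edgeSet.ncard := by ring

end Pool.Agent.H49.Gap
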