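import Pool.Agent.H49.Gap.Long

/-!
A finite graph whose cycles have at most `c` different lengths has an acyclic subgraph with at
least the fraction `1 / (c + 1)` of its edges.
-/

namespace Pool.Agent.H49.Gap

open SimpleGraph

variable {V : Type*}

/-- End vertex of a longest path: at most `1 + c` neighbours. -/
theorem exists_small_deg [Finite V] (K : SimpleGraph V) (hK : K ≠ ⊥) (S : Finset ℕ)
    (hS : ∀ (v : V) (w : K.Walk v v), w.IsCycle → w.length ∈ S) :
    ∃ u, (∃ z, K.Adj u z) ∧ (K.neighborSet u).ncard ≤ S.card + 1 := by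
  classical
  obtain ⟨a₀, b₀, hab₀⟩ := SimpleGraph.ne_bot_iff_exists_adj.mp hK
  have : Nonempty V := ⟨a₀⟩
  obtain ⟨u, v, p, hp, hmax⟩ := Walk.exists_isPath_forall_isPath_length_le_length K
  have hlen : 1 ≤ p.length := by
    have := hmax a₀ b₀ hab₀.toWalk hab₀.isPath_toWalk
    simpa using this
  -- the neighbours of `u` lie on the path
  have hnb : ∀ z, K.Adj u z → ∃ i, i ≤ p.length ∧ p.getVert i = z ∧ (i = 1 ∨ i + 1 ∈ S) := by
    intro z hz
    have hmem : z ∈ p.support := by
      by_contra hne
      have := hmax z v (Walk.cons hz.symm p) (hp.cons hne)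
      rw [Walk.length_cons] at this
      omega
    obtain ⟨i, hi, hil⟩ := Walk.mem_support_iff_exists_getVert.mp hmem
    refine ⟨i, hil, hi, ?_⟩
    obtain ⟨p₁, p₂, hpp, hl⟩ := cut_index p i hil hi
    have hp1 : p₁.IsPath := (hpp ▸ hp : (p₁.append p₂).IsPath).of_append_left
    by_cases h1 : p₁.length = 1
    · left; omega
    · right
      have hcyc : (Walk.cons hz.symm p₁).IsCycle := by
        rw [Walk.cons_isCycle_iff]
        refine ⟨hp1, fun hm => ?_⟩
        rw [Sym2.eq_swap] at hm
        exact h1 (hp1.length_eq_one_of_mem_edges hm)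
      have := hS _ _ hcyc
      rw [Walk.length_cons, hl] at this
      exact this
  refine ⟨u, ?_, ?_⟩
  · cases p with
    | nil => simp at hlen
    | cons h q => exact ⟨_, h⟩
  · have hsub : K.neighborSet u ⊆
        ((insert 1 (S.image (fun t => t - 1))).image p.getVert : Finset V) := by
      intro z hz
      obtain ⟨i, hil, hi, hor⟩ := hnb z hz
      rw [Finset.mem_coe, Finset.mem_image]
      refine ⟨i, ?_, hi⟩
      rw [Finset.mem_insert, Finset.mem_image]
      rcases hor with h | h
      · exact Or.inl h
      · exact Or.inr ⟨i + 1, h, rfl⟩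
    calc (K.neighborSet u).ncard
        ≤ (((insert 1 (S.image (fun t => t - 1))).image p.getVert : Finset V) : Set V).ncard :=
          Set.ncard_le_ncard hsub (Finset.finite_toSet _)
      _ = ((insert 1 (S.image (fun t => t - 1))).image p.getVert).card := Set.ncard_coe_finset _
      _ ≤ (insert 1 (S.image (fun t => t - 1))).card := Finset.card_image_le
      _ ≤ (S.image (fun t => t - 1)).card + 1 := Finset.card_insert_le _ _
      _ ≤ S.card + 1 := Nat.add_le_add_right Finset.card_image_le 1

/-- A finite graph all of whose cycle lengths belong to `S` has an acyclic subgraph with at least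
the fraction `1 / (|S| + 1)` of the edges. -/
theorem exists_forest [Finite V] (S : Finset ℕ) : ∀ (m : ℕ) (K : SimpleGraph V),
    K.edgeSet.ncard = m → (∀ (v : V) (w : K.Walk v v), w.IsCycle → w.length ∈ S) →
    ∃ F ≤ K, F.IsAcyclic ∧ K.edgeSet.ncard ≤ (S.card + 1) * F.edgeSet.ncard := by
  classical
  have := Fintype.ofFinite V
  intro m
  induction m using Nat.strong_induction_on with
  | _ m ih =>
    intro K hm hS
    by_cases hK : K = ⊥
    · subst hK
      exact ⟨⊥, le_rfl, isAcyclic_bot, by simp⟩
    obtain ⟨u, ⟨z, hz⟩, hdeg⟩ := exists_small_deg K hK S hS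
    set K' := K.deleteIncidenceSet u with hK'
    have hle : K' ≤ K := K.deleteIncidenceSet_le u
    have hcard : K.edgeSet.ncard ≤ K'.edgeSet.ncard + (K.neighborSet u).ncard := by
      have h1 : K'.edgeSet = K.edgeSet \ K.incidenceSet u := K.edgeSet_deleteIncidenceSet u
      have h2 : K.edgeSet ⊆ K'.edgeSet ∪ (fun z => s(u, z)) '' K.neighborSet u := by
        intro e he
        by_cases h : e ∈ K.incidenceSet u
        · right
          obtain ⟨he1, he2⟩ := h
          obtain ⟨y, rfl⟩ := Sym2.mem_iff_exists.mp he2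
          exact ⟨y, he1, rfl⟩
        · left
          rw [h1]
          exact ⟨he, h⟩
      calc K.edgeSet.ncard ≤ (K'.edgeSet ∪ (fun z => s(u, z)) '' K.neighborSet u).ncard :=
            Set.ncard_le_ncard h2 (Set.toFinite _)
        _ ≤ K'.edgeSet.ncard + ((fun z => s(u, z)) '' K.neighborSet u).ncard :=
            Set.ncard_union_le _ _
        _ ≤ K'.edgeSet.ncard + (K.neighborSet u).ncard :=
            Nat.add_le_add_left (Set.ncard_image_le (Set.toFinite _)) _
    have hlt : K'.edgeSet.ncard < m := by
      rw [← hm]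
      refine Set.ncard_lt_ncard ?_ (Set.toFinite _)
      refine ⟨SimpleGraph.edgeSet_subset_edgeSet.mpr hle, fun hsub => ?_⟩
      have h1 : s(u, z) ∈ K'.edgeSet := hsub hz
      rw [SimpleGraph.mem_edgeSet, hK', SimpleGraph.deleteIncidenceSet_adj] at h1
      exact h1.2.1 rfl
    have hS' : ∀ (v : V) (w : K'.Walk v v), w.IsCycle → w.length ∈ S := by
      intro v w hw
      have := hS v (w.mapLe hle) ((Walk.isCycle_mapLe hle).mpr hw)
      simpa using this
    obtain ⟨F, hF, hacyc, hFc⟩ := ih _ hlt K' rfl hS'
    -- `u` is isolated in `F`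
    have hiso : ∀ y, ¬ F.Adj u y := by
      intro y hy
      have := hF hy
      rw [hK', SimpleGraph.deleteIncidenceSet_adj] at this
      exact this.2.1 rfl
    have hnr : ¬ F.Reachable u z := by
      rintro ⟨w⟩
      cases w with
      | nil => exact K.loopless.irrefl _ hz
      | cons h q => exact hiso _ h
    refine ⟨F ⊔ SimpleGraph.edge u z, ?_, hacyc.sup_edge_of_not_reachable hnr, ?_⟩
    · refine sup_le (hF.trans hle) ?_
      rw [SimpleGraph.edge_le_iff]
      exact Or.inr hz
    · have hne : s(u, z) ∉ F.edgeSet := hiso z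
      have hc : (F ⊔ SimpleGraph.edge u z).edgeSet.ncard = F.edgeSet.ncard + 1 := by
        rw [SimpleGraph.edgeSet_sup, SimpleGraph.edgeSet_edge_of_ne hz.ne, Set.union_singleton,
          Set.ncard_insert_of_notMem hne (Set.toFinite _)]
      rw [hc]
      calc K.edgeSet.ncard ≤ K'.edgeSet.ncard + (K.neighborSet u).ncard := hcard
        _ ≤ (S.card + 1) * F.edgeSet.ncard + (S.card + 1) := Nat.add_le_add hFc hdeg
        _ = (S.card + 1) * (F.edgeSet.ncard + 1) := by ring

end Pool.Agent.H49.Gap
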