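import Pool.Agent.H49.Gap.Rel

/-!
If any two edges of a graph without cycles of length in `(L, 2L-2]` lie on a common cycle of length
at most `L`, then the graph has no cycle longer than `L`.
-/

namespace Pool.Agent.H49.Gap

open SimpleGraph

variable {V : Type*} {K : SimpleGraph V} {L : ℕ}

/-- `Q` is a walk between the vertices number `i` and `j` of the closed walk formed by the path `p`
and the edge joining its ends, shorter than both arcs. `n` is the number of vertices of `p`. -/
def Shortcut {a b : V} (p : K.Walk a b) (n ℓ : ℕ) : Prop :=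
  ∃ (i j : ℕ) (Q : K.Walk (p.getVert i) (p.getVert j)), i < n ∧ j < n ∧ Q.length = ℓ ∧
    (ℓ + i < j ∨ ℓ + j < i) ∧ ℓ + j < n + i ∧ ℓ + i < n + j

theorem noLong (hL : 3 ≤ L) (hK : NoMid L K)
    (hR : ∀ e ∈ K.edgeSet, ∀ f ∈ K.edgeSet, Rel L K e f) (v : V) (w : K.Walk v v)
    (hw : w.IsCycle) : w.length ≤ L := by
  classical
  by_contra hlong
  -- minimal long cycle, in path form
  let P : ℕ → Prop := fun m => ∃ (a b : V) (p : K.Walk a b), K.Adj a b ∧ p.IsPath ∧
    p.length + 1 = m ∧ L < m
  have hPof : ∀ (v : V) (w : K.Walk v v), w.IsCycle → L < w.length → P w.length := by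
    intro v w hw hLw
    have h3 := hw.three_le_length
    cases w with
    | nil => simp at h3
    | @cons _ u _ h p =>
      rw [Walk.cons_isCycle_iff] at hw
      rw [Walk.length_cons] at hLw ⊢
      exact ⟨u, v, p, h.symm, hw.1, rfl, hLw⟩
  have hex : ∃ m, P m := ⟨_, hPof v w hw (by omega)⟩
  obtain ⟨n, ⟨a, b, p, hab, hp, hpn, hLn⟩, hmin⟩ : ∃ n, P n ∧ ∀ m, P m → n ≤ m :=
    ⟨Nat.find hex, Nat.find_spec hex, fun m hm => Nat.find_min' hex hm⟩
  -- the long cycle has at least 2L-1 vertices
  have hn : 2 * L ≤ n + 1 := by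
    have hcyc : (Walk.cons hab.symm p).IsCycle := by
      rw [Walk.cons_isCycle_iff]
      refine ⟨hp, fun hmem => ?_⟩
      rw [Sym2.eq_swap] at hmem
      have := hp.length_eq_one_of_mem_edges hmem
      omega
    rcases hK _ _ hcyc with h | h
    · rw [Walk.length_cons] at h; omega
    · rw [Walk.length_cons] at h; omega
  -- every cycle with fewer than n vertices is short
  have hshort : ∀ (v : V) (w : K.Walk v v), w.IsCycle → w.length < n → w.length ≤ L := by
    intro v w hw hwn
    by_contra hc
    have := hmin _ (hPof v w hw (by omega))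
    omega
  have hinj : ∀ i j, i < n → j < n → p.getVert i = p.getVert j → i = j := by
    intro i j hi hj hij
    exact hp.getVert_injOn (by simp only [Set.mem_ofPred_eq]; omega)
      (by simp only [Set.mem_ofPred_eq]; omega) hij
  -- a shortcut exists
  have hsc : ∃ ℓ, Shortcut p n ℓ := by
    have hadj : ∀ i, i + 1 < n → K.Adj (p.getVert i) (p.getVert (i + 1)) := fun i hi =>
      p.adj_getVert_succ (by omega)
    have he : s(p.getVert 0, p.getVert 1) ∈ K.edgeSet := hadj 0 (by omega)
    have hf : s(p.getVert (L - 1), p.getVert L) ∈ K.edgeSet := by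
      have := hadj (L - 1) (by omega)
      rwa [show L - 1 + 1 = L by omega] at this
    rcases hR _ he _ hf with h | ⟨c, d, q, hcd, hecd, hq, hq2, hqL, hfq⟩
    · exfalso
      rw [Sym2.eq_iff] at h
      rcases h with ⟨h1, h2⟩ | ⟨h1, h2⟩
      · have := hinj 0 (L - 1) (by omega) (by omega) h1
        omega
      · have := hinj 0 L (by omega) (by omega) h1
        omega
    · obtain ⟨x, y, hxy, q₁, q₂, hxyf, rfl⟩ := split_edge q hfq
      rw [Walk.length_append, Walk.length_cons] at hqL
      -- c, d are the vertices number 0, 1; x, y the vertices number L-1, L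
      have hc : ∃ i, i ≤ 1 ∧ p.getVert i = c := by
        rw [Sym2.eq_iff] at hecd
        rcases hecd with ⟨h1, h2⟩ | ⟨h1, h2⟩
        · exact ⟨0, by omega, h1⟩
        · exact ⟨1, by omega, h2⟩
      have hd : ∃ i, i ≤ 1 ∧ p.getVert i = d := by
        rw [Sym2.eq_iff] at hecd
        rcases hecd with ⟨h1, h2⟩ | ⟨h1, h2⟩
        · exact ⟨1, by omega, h2⟩
        · exact ⟨0, by omega, h1⟩
      have hx : ∃ j, L - 1 ≤ j ∧ j ≤ L ∧ p.getVert j = x := by
        rw [Sym2.eq_iff] at hxyf
        rcases hxyf with ⟨h1, h2⟩ | ⟨h1, h2⟩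
        · exact ⟨L - 1, by omega, by omega, h1⟩
        · exact ⟨L, by omega, by omega, h2⟩
      have hy : ∃ j, L - 1 ≤ j ∧ j ≤ L ∧ p.getVert j = y := by
        rw [Sym2.eq_iff] at hxyf
        rcases hxyf with ⟨h1, h2⟩ | ⟨h1, h2⟩
        · exact ⟨L, by omega, by omega, h2⟩
        · exact ⟨L - 1, by omega, by omega, h1⟩
      obtain ⟨ic, hic, rfl⟩ := hc
      obtain ⟨id, hid, rfl⟩ := hd
      obtain ⟨jx, hjx, hjx', rfl⟩ := hx
      obtain ⟨jy, hjy, hjy', rfl⟩ := hy
      by_cases hle : q₁.length ≤ q₂.length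
      · exact ⟨q₁.length, ic, jx, q₁, by omega, by omega, rfl, by omega, by omega, by omega⟩
      · exact ⟨q₂.length, jy, id, q₂, by omega, by omega, rfl, by omega, by omega, by omega⟩
  obtain ⟨ℓ, hℓ, hℓmin⟩ : ∃ ℓ, Shortcut p n ℓ ∧ ∀ m, Shortcut p n m → ℓ ≤ m :=
    ⟨Nat.find hsc, Nat.find_spec hsc, fun m hm => Nat.find_min' hsc hm⟩
  -- ordered version
  obtain ⟨i, j, Q, hi, hj, hQ, hij, hji⟩ : ∃ (i j : ℕ) (Q : K.Walk (p.getVert i) (p.getVert j)),
      i < n ∧ j < n ∧ Q.length = ℓ ∧ ℓ + i < j ∧ ℓ + j < n + i := by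
    obtain ⟨i, j, Q, hi, hj, hQ, h1, h2, h3⟩ := hℓ
    rcases h1 with h1 | h1
    · exact ⟨i, j, Q, hi, hj, hQ, h1, h2⟩
    · exact ⟨j, i, Q.reverse, hj, hi, by rw [Walk.length_reverse]; exact hQ, h1, h3⟩
  -- `Q` is a path
  have hQp : Q.IsPath := by
    have h1 : Shortcut p n Q.bypass.length := by
      have := Q.length_bypass_le_length
      exact ⟨i, j, Q.bypass, hi, hj, rfl, by omega, by omega, by omega⟩
    have h2 := hℓmin _ h1
    have h3 := Q.bypass_eq_self_of_length_le_length_bypass (by omega)
    rw [← h3]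
    exact Q.bypass_isPath
  -- `Q` meets the cycle only in its ends
  have hQint : ∀ z ∈ Q.support, z ∈ p.support → z = p.getVert i ∨ z = p.getVert j := by
    intro z hz hzp
    by_contra hne
    push Not at hne
    obtain ⟨k, hk, hkn⟩ := Walk.mem_support_iff_exists_getVert.mp hzp
    obtain ⟨Q₁, Q₂, hQQ⟩ := Walk.mem_support_iff_exists_append.mp hz
    subst hk
    have hlen : Q.length = Q₁.length + Q₂.length := by rw [hQQ, Walk.length_append]
    have hk1 : Q₁.length ≠ 0 := by
      intro h0
      exact hne.1 (Walk.eq_of_length_eq_zero h0).symm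
    have hk2 : Q₂.length ≠ 0 := by
      intro h0
      exact hne.2 (Walk.eq_of_length_eq_zero h0)
    have hki : k ≠ i := fun h => hne.1 (by rw [h])
    have hkj : k ≠ j := fun h => hne.2 (by rw [h])
    have n1 : ¬ Shortcut p n Q₁.length := fun h => by
      have := hℓmin _ h
      omega
    have n2 : ¬ Shortcut p n Q₂.length := fun h => by
      have := hℓmin _ h
      omega
    have m1 : ¬ ((Q₁.length + i < k ∨ Q₁.length + k < i) ∧ Q₁.length + k < n + i ∧
        Q₁.length + i < n + k) := fun h =>
      n1 ⟨i, k, Q₁, hi, by omega, rfl, h.1, h.2.1, h.2.2⟩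
    have m2 : ¬ ((Q₂.length + k < j ∨ Q₂.length + j < k) ∧ Q₂.length + j < n + k ∧
        Q₂.length + k < n + j) := fun h =>
      n2 ⟨k, j, Q₂, by omega, hj, rfl, h.1, h.2.1, h.2.2⟩
    omega
  -- cut the path
  obtain ⟨p₁, p₂, p₃, hppp, hl1, hl2⟩ := cut_index_two p i j (by omega) (by omega) rfl rfl
  have hxy : p.getVert i ≠ p.getVert j := fun h => by
    have := hinj _ _ hi hj h
    omega
  generalize hx : p.getVert i = x at *
  generalize hy : p.getVert j = y at *
  have hpath : (p₁.append (p₂.append p₃)).IsPath := hppp ▸ hp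
  obtain ⟨h1, h2, h3, h13, h12, h23⟩ := three_nodup hpath hxy
  have hplen : p.length = p₁.length + (p₂.length + p₃.length) := by
    rw [hppp, Walk.length_append, Walk.length_append]
  have hQne : Q.length ≠ 0 := fun h0 => hxy (Walk.eq_of_length_eq_zero h0)
  have hsub1 : ∀ z ∈ p₁.support, z ∈ p.support := fun z hz => by
    rw [hppp, Walk.mem_support_append_iff]
    exact Or.inl hz
  have hsub2 : ∀ z ∈ p₂.support, z ∈ p.support := fun z hz => by
    rw [hppp, Walk.mem_support_append_iff, Walk.mem_support_append_iff]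
    exact Or.inr (Or.inl hz)
  have hsub3 : ∀ z ∈ p₃.support, z ∈ p.support := fun z hz => by
    rw [hppp, Walk.mem_support_append_iff, Walk.mem_support_append_iff]
    exact Or.inr (Or.inr hz)
  -- two vertices in tails
  have tail_ne : ∀ {c d : V} (r : K.Walk c d), r.IsPath → ∀ z ∈ r.support.tail, z ≠ c := by
    intro c d r hr z hz hzc
    subst hzc
    have h2 := hr.support_nodup
    rw [← Walk.cons_tail_support] at h2
    exact (List.nodup_cons.mp h2).1 hz
  -- first cycle
  have hC1 : (p₂.append Q.reverse).IsCycle := by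
    refine Walk.IsPath.isCycle_append h2 (Walk.IsPath.reverse hQp) ?_ (Or.inl (by omega))
    intro z hz hz'
    have hz1 : z ≠ x := tail_ne p₂ h2 z hz
    have hz2 : z ≠ y := tail_ne Q.reverse (Walk.IsPath.reverse hQp) z hz'
    have hz3 := List.mem_of_mem_tail hz'
    rw [Walk.support_reverse, List.mem_reverse] at hz3
    rcases hQint z hz3 (hsub2 z (List.mem_of_mem_tail hz)) with h | h
    · exact hz1 h
    · exact hz2 h
  have hB : (p₃.append (Walk.cons hab.symm p₁)).IsPath := by
    refine append_isPath h3 ?_ ?_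
    · rw [Walk.cons_isPath_iff]
      exact ⟨h1, fun h => h13 b h p₃.end_mem_support⟩
    · intro z hz hz'
      rw [Walk.support_cons, List.mem_cons] at hz'
      rcases hz' with h | h
      · exact h
      · exact absurd hz (h13 z h)
  have hC2 : ((p₃.append (Walk.cons hab.symm p₁)).append Q).IsCycle := by
    refine Walk.IsPath.isCycle_append hB hQp ?_ (Or.inl ?_)
    · intro z hz hz'
      have hz1 : z ≠ y := tail_ne _ hB z hz
      have hz2 : z ≠ x := tail_ne Q hQp z hz'
      have hz3 := List.mem_of_mem_tail hz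
      have hz4 : z ∈ p.support := by
        rw [Walk.mem_support_append_iff, Walk.support_cons, List.mem_cons] at hz3
        rcases hz3 with h | rfl | h
        · exact hsub3 z h
        · exact p.end_mem_support
        · exact hsub1 z h
      rcases hQint z (List.mem_of_mem_tail hz') hz4 with h | h
      · exact hz2 h
      · exact hz1 h
    · rw [Walk.length_append, Walk.length_cons]
      omega
  have e1 := hshort _ _ hC1 (by rw [Walk.length_append, Walk.length_reverse]; omega)
  have e2 := hshort _ _ hC2 (by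
    rw [Walk.length_append, Walk.length_append, Walk.length_cons]; omega)
  rw [Walk.length_append, Walk.length_reverse] at e1
  rw [Walk.length_append, Walk.length_append, Walk.length_cons] at e2
  omega

end Pool.Agent.H49.Gap
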