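import Pool.Agent.H49.Gap.Forest

/-!
The gap theorem: if no cycle of `G` has length in `(L, 2L-2]` then the edges can be coloured so
that the monochromatic cycles are exactly the cycles of length at most `L`, and `G` has a subgraph
of girth at least `2L-1` with at least the fraction `1/(c+1)` of the edges, where `c` is the number
of different lengths of cycles of length at most `L`.
-/

namespace Pool.Agent.H49.Gap

open SimpleGraph

variable {V : Type*}

/-- A colouring of the edges whose colour classes are the classes of `Rel`. -/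
theorem exists_col {L : ℕ} {G : SimpleGraph V} (hG : NoMid L G) :
    ∃ col : Sym2 V → Sym2 V, ∀ e ∈ G.edgeSet, ∀ f ∈ G.edgeSet, (col e = col f ↔ Rel L G e f) := by
  classical
  let r : Setoid G.edgeSet :=
    { r := fun e f => Rel L G e.1 f.1
      iseqv := ⟨fun e => Or.inl rfl, fun h => h.symm, fun h₁ h₂ => Rel.trans hG h₁ h₂⟩ }
  refine ⟨fun e => if h : e ∈ G.edgeSet then ((Quotient.mk r ⟨e, h⟩).out).1 else e, ?_⟩
  intro e he f hf
  simp only [dif_pos he, dif_pos hf]
  constructor
  · intro h
    have h1 : (Quotient.mk r ⟨e, he⟩).out = (Quotient.mk r ⟨f, hf⟩).out := Subtype.ext h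
    have h2 : Quotient.mk r ⟨e, he⟩ = Quotient.mk r ⟨f, hf⟩ := Quotient.out_injective h1
    exact Quotient.exact h2
  · intro h
    have h2 : Quotient.mk r ⟨e, he⟩ = Quotient.mk r ⟨f, hf⟩ := Quotient.sound h
    rw [h2]

/-- The graph formed by the edges of colour `c`. -/
def colClass (G : SimpleGraph V) (col : Sym2 V → Sym2 V) (c : Sym2 V) : SimpleGraph V :=
  SimpleGraph.fromEdgeSet {e | e ∈ G.edgeSet ∧ col e = c}

theorem mem_colClass {G : SimpleGraph V} {col : Sym2 V → Sym2 V} {c e : Sym2 V} :
    e ∈ (colClass G col c).edgeSet ↔ e ∈ G.edgeSet ∧ col e = c := by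
  unfold colClass
  rw [SimpleGraph.edgeSet_fromEdgeSet, Set.mem_sdiff]
  constructor
  · rintro ⟨h, -⟩
    exact h
  · rintro h
    exact ⟨h, fun hd => G.not_isDiag_of_mem_edgeSet h.1 hd⟩

theorem colClass_le {G : SimpleGraph V} {col : Sym2 V → Sym2 V} {c : Sym2 V} :
    colClass G col c ≤ G := by
  rw [← SimpleGraph.edgeSet_subset_edgeSet]
  intro e he
  exact (mem_colClass.mp he).1

/-- Colour classes contain no long cycles. -/
theorem colClass_short {L : ℕ} (hL : 3 ≤ L) {G : SimpleGraph V} (hG : NoMid L G)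
    {col : Sym2 V → Sym2 V}
    (hcol : ∀ e ∈ G.edgeSet, ∀ f ∈ G.edgeSet, (col e = col f ↔ Rel L G e f)) (c : Sym2 V) (v : V)
    (w : (colClass G col c).Walk v v) (hw : w.IsCycle) : w.length ≤ L := by
  refine noLong hL ?_ ?_ v w hw
  · intro v w hw
    have := hG v (w.mapLe colClass_le) ((Walk.isCycle_mapLe colClass_le).mpr hw)
    simpa using this
  · intro e he f hf
    rw [mem_colClass] at he hf
    have hef : Rel L G e f := (hcol e he.1 f hf.1).mp (he.2.trans hf.2.symm)
    rcases hef with rfl | ⟨a, b, p, hab, rfl, hp, h2, hpL, hfp⟩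
    · exact Or.inl rfl
    · right
      have hall : ∀ g ∈ p.edges, g ∈ (colClass G col c).edgeSet := by
        intro g hg
        have hgG : g ∈ G.edgeSet := p.edges_subset_edgeSet hg
        rw [mem_colClass]
        refine ⟨hgG, ?_⟩
        have : Rel L G s(a, b) g := Or.inr ⟨a, b, p, hab, rfl, hp, h2, hpL, hg⟩
        rw [← (hcol _ he.1 _ hgG).mpr this]
        exact he.2
      refine ⟨a, b, p.transfer _ hall, ?_, rfl, hp.transfer hall, ?_, ?_, ?_⟩
      · exact mem_colClass.mpr he
      · rwa [Walk.length_transfer]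
      · rwa [Walk.length_transfer]
      · rwa [Walk.edges_transfer]

/-- The colouring theorem. -/
theorem colouring {L : ℕ} (hL : 3 ≤ L) {G : SimpleGraph V} (hG : NoMid L G) :
    ∃ col : Sym2 V → Sym2 V, ∀ (v : V) (w : G.Walk v v), w.IsCycle →
      (w.length ≤ L ↔ ∀ e ∈ w.edges, ∀ f ∈ w.edges, col e = col f) := by
  obtain ⟨col, hcol⟩ := exists_col hG
  refine ⟨col, fun v w hw => ⟨?_, ?_⟩⟩
  · intro hwL e he f hf
    exact (hcol e (w.edges_subset_edgeSet he) f (w.edges_subset_edgeSet hf)).mpr
      (Rel.of_cycle hG w hw hwL he hf)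
  · intro hmono
    have h3 := hw.three_le_length
    obtain ⟨e₀, he₀⟩ : ∃ e₀, e₀ ∈ w.edges := by
      rw [← Walk.length_edges] at h3
      exact List.exists_mem_of_length_pos (by omega)
    have hall : ∀ g ∈ w.edges, g ∈ (colClass G col (col e₀)).edgeSet := fun g hg =>
      mem_colClass.mpr ⟨w.edges_subset_edgeSet hg, hmono g hg e₀ he₀⟩
    have := colClass_short hL hG hcol (col e₀) v (w.transfer _ hall) (hw.transfer hall)
    rwa [Walk.length_transfer] at this

/-- **Gap theorem.** -/
theorem gap [Finite V] (G : SimpleGraph V) (L : ℕ) (S : Finset ℕ) (hSL : ∀ s ∈ S, s ≤ L)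
    (hG : ∀ (v : V) (w : G.Walk v v), w.IsCycle → w.length ∈ S ∨ 2 * L ≤ w.length + 1) :
    ∃ H ≤ G, (∀ (v : V) (w : H.Walk v v), w.IsCycle → 2 * L ≤ w.length + 1) ∧
      G.edgeSet.ncard ≤ (S.card + 1) * H.edgeSet.ncard := by
  classical
  have := Fintype.ofFinite V
  rcases Nat.lt_or_ge L 3 with hL | hL
  · refine ⟨G, le_rfl, fun v w hw => ?_, ?_⟩
    · have := hw.three_le_length
      omega
    · exact Nat.le_mul_of_pos_left _ (Nat.succ_pos _)
  have hmid : NoMid L G := fun v w hw => by
    rcases hG v w hw with h | h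
    · exact Or.inl (hSL _ h)
    · exact Or.inr h
  obtain ⟨col, hcol⟩ := exists_col hmid
  have hcyc : ∀ (c : Sym2 V) (v : V) (w : (colClass G col c).Walk v v), w.IsCycle →
      w.length ∈ S := by
    intro c v w hw
    have h1 := colClass_short hL hmid hcol c v w hw
    have h2 := hG v (w.mapLe colClass_le) ((Walk.isCycle_mapLe colClass_le).mpr hw)
    rw [Walk.length_mapLe] at h2
    rcases h2 with h | h
    · exact h
    · omega
  choose F hFle hFac hFc using fun c : Sym2 V =>
    exists_forest S _ (colClass G col c) rfl (hcyc c)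
  have hFcol : ∀ c e, e ∈ (F c).edgeSet → e ∈ G.edgeSet ∧ col e = c := fun c e he =>
    mem_colClass.mp (SimpleGraph.edgeSet_subset_edgeSet.mpr (hFle c) he)
  set H : SimpleGraph V := SimpleGraph.fromEdgeSet {e | e ∈ (F (col e)).edgeSet} with hHdef
  have hH : ∀ e, e ∈ H.edgeSet ↔ e ∈ (F (col e)).edgeSet := by
    intro e
    rw [hHdef, SimpleGraph.edgeSet_fromEdgeSet, Set.mem_sdiff]
    constructor
    · rintro ⟨h, -⟩
      exact h
    · intro h
      exact ⟨h, fun hd => (F (col e)).not_isDiag_of_mem_edgeSet h hd⟩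
  have hHG : H ≤ G := by
    rw [← SimpleGraph.edgeSet_subset_edgeSet]
    intro e he
    exact (hFcol _ e ((hH e).mp he)).1
  refine ⟨H, hHG, ?_, ?_⟩
  · intro v w hw
    rcases hG v (w.mapLe hHG) ((Walk.isCycle_mapLe hHG).mpr hw) with h | h
    · exfalso
      rw [Walk.length_mapLe] at h
      have h3 := hw.three_le_length
      obtain ⟨e₀, he₀⟩ : ∃ e₀, e₀ ∈ w.edges := by
        rw [← Walk.length_edges] at h3
        exact List.exists_mem_of_length_pos (by omega)
      have hcyc' := (Walk.isCycle_mapLe hHG (p := w)).mpr hw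
      have hsame : ∀ e ∈ w.edges, col e = col e₀ := by
        intro e he
        have hrel := Rel.of_cycle hmid (w.mapLe hHG) hcyc' (by
          rw [Walk.length_mapLe]; exact hSL _ h) (e := e) (f := e₀)
          (by rwa [Walk.edges_mapLe_eq_edges]) (by rwa [Walk.edges_mapLe_eq_edges])
        exact (hcol e (hFcol _ e ((hH e).mp (w.edges_subset_edgeSet he))).1 e₀
          (hFcol _ e₀ ((hH e₀).mp (w.edges_subset_edgeSet he₀))).1).mpr hrel
      have hall : ∀ g ∈ w.edges, g ∈ (F (col e₀)).edgeSet := by
        intro g hg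
        have := (hH g).mp (w.edges_subset_edgeSet hg)
        rwa [hsame g hg] at this
      exact hFac (col e₀) (w.transfer _ hall) (hw.transfer hall)
    · rwa [Walk.length_mapLe] at h
  · -- counting
    have count : ∀ (K : SimpleGraph V) (T : Sym2 V → SimpleGraph V),
        (∀ e, e ∈ K.edgeSet ↔ e ∈ (T (col e)).edgeSet) →
        (∀ c e, e ∈ (T c).edgeSet → col e = c) →
        K.edgeSet.ncard = ∑ c, (T c).edgeSet.ncard := by
      intro K T h1 h2
      rw [Set.ncard_eq_toFinset_card']
      rw [Finset.card_eq_sum_card_fiberwise (f := col) (t := Finset.univ)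
        (fun _ _ => Finset.mem_coe.mpr (Finset.mem_univ _))]
      refine Finset.sum_congr rfl fun c _ => ?_
      rw [Set.ncard_eq_toFinset_card']
      congr 1
      ext e
      rw [Finset.mem_filter, Set.mem_toFinset, Set.mem_toFinset, h1 e]
      constructor
      · rintro ⟨h, rfl⟩
        exact h
      · intro h
        have := h2 c e h
        subst this
        exact ⟨h, rfl⟩
    rw [count G (colClass G col) (fun e => by
        rw [mem_colClass]; exact ⟨fun h => ⟨h, rfl⟩, fun h => h.1⟩)
      (fun c e he => (mem_colClass.mp he).2),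
      count H F hH (fun c e he => (hFcol c e he).2), Finset.mul_sum]
    exact Finset.sum_le_sum fun c _ => hFc c

end Pool.Agent.H49.Gap
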