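import Pool.Agent.H49.Gap.Walks

/-!
The relation that two edges lie on a common short cycle is an equivalence relation when there is no
cycle whose length lies between `L + 1` and `2 L - 2`.
-/

namespace Pool.Agent.H49.Gap

open SimpleGraph

variable {V : Type*}

/-- `G` has no cycle whose length lies strictly between `L` and `2 L - 1`. -/
def NoMid (L : ℕ) (G : SimpleGraph V) : Prop :=
  ∀ (v : V) (w : G.Walk v v), w.IsCycle → w.length ≤ L ∨ 2 * L ≤ w.length + 1

/-- The edges `e`, `f` are equal or lie on a common cycle of length at most `L`. -/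
def Rel (L : ℕ) (G : SimpleGraph V) (e f : Sym2 V) : Prop :=
  e = f ∨ ∃ (a b : V) (p : G.Walk a b), G.Adj a b ∧ e = s(a, b) ∧ p.IsPath ∧ 2 ≤ p.length ∧
    p.length + 1 ≤ L ∧ f ∈ p.edges

variable {G : SimpleGraph V} {L : ℕ}

theorem Rel.symm {e f : Sym2 V} (h : Rel L G e f) : Rel L G f e := by
  rcases h with rfl | ⟨a, b, p, hab, rfl, hp, h2, hL, hf⟩
  · exact Or.inl rfl
  · obtain ⟨c, d, hcd, p₁, p₂, rfl, rfl⟩ := split_edge p hf
    right
    have hlen : (p₁.append (Walk.cons hcd p₂)).length = p₁.length + (p₂.length + 1) := by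
      rw [Walk.length_append, Walk.length_cons]
    refine ⟨d, c, p₂.append (Walk.cons hab.symm p₁), hcd.symm, Sym2.eq_swap, ?_, ?_, ?_, ?_⟩
    · rw [Walk.isPath_def, Walk.support_append, Walk.support_cons, List.tail_cons] at hp ⊢
      rw [List.nodup_append_comm]
      exact hp
    · rw [Walk.length_append, Walk.length_cons]
      omega
    · rw [Walk.length_append, Walk.length_cons]
      omega
    · rw [Walk.edges_append, Walk.edges_cons, List.mem_append, List.mem_cons]
      exact Or.inr (Or.inl Sym2.eq_swap)

/-- Short path through `g` between adjacent vertices gives the relation. -/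
theorem Rel.of_path {a b : V} (hab : G.Adj a b) {p : G.Walk a b} (hp : p.IsPath)
    (hL : p.length + 1 ≤ L) {g : Sym2 V} (hg : g ∈ p.edges) : Rel L G s(a, b) g := by
  by_cases h2 : 2 ≤ p.length
  · exact Or.inr ⟨a, b, p, hab, rfl, hp, h2, hL, hg⟩
  · left
    cases p with
    | nil => exact absurd hab (G.loopless.irrefl _)
    | cons h q =>
      cases q with
      | nil => 
        rw [Walk.edges_cons, Walk.edges_nil, List.mem_singleton] at hg
        exact hg.symm
      | cons h' q' =>
        rw [Walk.length_cons, Walk.length_cons] at h2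
        omega

theorem Rel.trans (hG : NoMid L G) {e f g : Sym2 V} (h₁ : Rel L G e f) (h₂ : Rel L G f g) :
    Rel L G e g := by
  classical
  rcases h₁ with rfl | ⟨a, b, p, hab, rfl, hp, h2, hL, hf⟩
  · exact h₂
  rcases h₂ with rfl | ⟨c, d, q, hcd, rfl, hq, hq2, hqL, hg⟩
  · exact Or.inr ⟨a, b, p, hab, rfl, hp, h2, hL, hf⟩
  have hc : c ∈ p.support := p.fst_mem_support_of_mem_edges hf
  have hd : d ∈ p.support := p.snd_mem_support_of_mem_edges hf
  have hcS : c ∈ q.support := q.start_mem_support
  have hdS : d ∈ q.support := q.end_mem_support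
  obtain ⟨x, p₁, r, hx, hpr, hmin₁⟩ := first_in {z | z ∈ q.support} p ⟨c, hc, hcS⟩
  obtain ⟨y, p₂, p₃, hy, hr, hmin₂⟩ := last_in {z | z ∈ q.support} r ⟨x, r.start_mem_support, hx⟩
  subst hr
  have hpath : (p₁.append (p₂.append p₃)).IsPath := hpr ▸ hp
  have hxy : x ≠ y := by
    rintro rfl
    have hp2 : p₂ = Walk.nil := by
      have h23 := hpath.of_append_right.of_append_left
      exact (Walk.isPath_iff_nil.mp h23).eq_nil
    have hall : ∀ z ∈ p.support, z ∈ q.support → z = x := by
      intro z hz hzS
      rw [hpr, Walk.mem_support_append_iff, Walk.mem_support_append_iff, hp2, Walk.support_nil,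
        List.mem_singleton] at hz
      rcases hz with hz | hz | hz
      · exact hmin₁ z hz hzS
      · exact hz
      · exact hmin₂ z hz hzS
    exact hcd.ne ((hall c hc hcS).trans (hall d hd hdS).symm)
  obtain ⟨h1, -, h3, h13, -, -⟩ := three_nodup hpath hxy
  obtain ⟨A, hA, hAs, hgA⟩ := arc hcd q hq hx hy hxy (Or.inl hg)
  have hN : (p₁.append (A.append p₃)).IsPath :=
    assemble h1 hA h3 h13 (fun z hz hz' => hmin₁ z hz (hAs z hz'))
      (fun z hz hz' => hmin₂ z hz' (hAs z hz))
  have hgN : g ∈ (p₁.append (A.append p₃)).edges := by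
    rw [Walk.edges_append, Walk.edges_append, List.mem_append, List.mem_append]
    exact Or.inr (Or.inl hgA)
  -- the number of vertices of the new path
  have hcard : (p₁.append (A.append p₃)).length + 1 ≤ 2 * L - 2 := by
    have hsub : (p₁.append (A.append p₃)).support.toFinset ⊆
        p.support.toFinset ∪ q.support.toFinset := by
      intro z hz
      rw [List.mem_toFinset, Walk.mem_support_append_iff, Walk.mem_support_append_iff] at hz
      rw [Finset.mem_union, List.mem_toFinset, List.mem_toFinset]
      rcases hz with hz | hz | hz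
      · left
        rw [hpr, Walk.mem_support_append_iff]
        exact Or.inl hz
      · exact Or.inr (hAs z hz)
      · left
        rw [hpr, Walk.mem_support_append_iff, Walk.mem_support_append_iff]
        exact Or.inr (Or.inr hz)
    have h5 := Finset.card_le_card hsub
    have h6 := Finset.card_union_add_card_inter p.support.toFinset q.support.toFinset
    have h7 : ({c, d} : Finset V) ⊆ p.support.toFinset ∩ q.support.toFinset := by
      intro z hz
      rw [Finset.mem_insert, Finset.mem_singleton] at hz
      rw [Finset.mem_inter, List.mem_toFinset, List.mem_toFinset]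
      rcases hz with rfl | rfl
      · exact ⟨hc, hcS⟩
      · exact ⟨hd, hdS⟩
    have h8 := Finset.card_le_card h7
    rw [Finset.card_pair hcd.ne] at h8
    rw [List.toFinset_card_of_nodup hp.support_nodup, List.toFinset_card_of_nodup hq.support_nodup,
      Walk.length_support, Walk.length_support] at h6
    rw [List.toFinset_card_of_nodup hN.support_nodup, Walk.length_support] at h5
    omega
  by_cases hN2 : 2 ≤ (p₁.append (A.append p₃)).length
  · have hcyc : (Walk.cons hab.symm (p₁.append (A.append p₃))).IsCycle := by
      rw [Walk.cons_isCycle_iff]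
      refine ⟨hN, fun hmem => ?_⟩
      rw [Sym2.eq_swap] at hmem
      have := hN.length_eq_one_of_mem_edges hmem
      omega
    rcases hG _ _ hcyc with h | h
    · rw [Walk.length_cons] at h
      exact Rel.of_path hab hN h hgN
    · rw [Walk.length_cons] at h
      omega
  · exact Rel.of_path hab hN (by omega) hgN

/-- All edges of a short cycle are related. -/
theorem Rel.of_cycle (hG : NoMid L G) {v : V} (w : G.Walk v v) (hw : w.IsCycle) (hL : w.length ≤ L)
    {e f : Sym2 V} (he : e ∈ w.edges) (hf : f ∈ w.edges) : Rel L G e f := by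
  have h3 := hw.three_le_length
  cases w with
  | nil => simp at h3
  | @cons _ u _ h p =>
    rw [Walk.cons_isCycle_iff] at hw
    rw [Walk.length_cons] at h3 hL
    have key : ∀ g ∈ (Walk.cons h p).edges, Rel L G s(v, u) g := by
      intro g hg
      rw [Walk.edges_cons, List.mem_cons] at hg
      rcases hg with rfl | hg
      · exact Or.inl rfl
      · exact Or.inr ⟨u, v, p, h.symm, Sym2.eq_swap, hw.1, by omega, hL, hg⟩
    exact Rel.trans hG (key e he).symm (key f hf)

end Pool.Agent.H49.Gap
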