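import Pool.Agent.H49.Gap.Half

/-!
Complete bipartite graphs show that the constant in the gap theorem is optimal.
-/

namespace Pool.Agent.H49.Gap

open SimpleGraph

/-- The cycles of a complete bipartite graph with a part of size `s` have even length at most
`2 s`. -/
theorem kbip_cycles (s N : ℕ) (v : Fin s ⊕ Fin N)
    (w : (completeBipartiteGraph (Fin s) (Fin N)).Walk v v) (hw : w.IsCycle) :
    Even w.length ∧ w.length ≤ 2 * s := by
  classical
  have hadj : ∀ a b, (completeBipartiteGraph (Fin s) (Fin N)).Adj a b → a.isLeft ≠ b.isLeft := by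
    intro a b h
    rw [completeBipartiteGraph_adj] at h
    rcases h with ⟨h1, h2⟩ | ⟨h1, h2⟩
    · cases a <;> cases b <;> simp_all
    · cases a <;> cases b <;> simp_all
  have hev : Even w.length := even_of_cut hadj w
  refine ⟨hev, ?_⟩
  obtain ⟨t, ht⟩ := hev
  -- among the vertices number `2i`, `2i+1` one lies in the small part
  have hc : ∀ i, i < t → ∃ j, (j = 2 * i ∨ j = 2 * i + 1) ∧
      w.getVert j ∈ (Finset.univ : Finset (Fin s)).image (Sum.inl : Fin s → Fin s ⊕ Fin N) := by
    intro i hi
    have h1 := hadj _ _ (w.adj_getVert_succ (i := 2 * i) (by omega))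
    rcases h : w.getVert (2 * i) with x | y
    · refine ⟨2 * i, Or.inl rfl, ?_⟩
      rw [h]
      exact Finset.mem_image_of_mem _ (Finset.mem_univ _)
    · refine ⟨2 * i + 1, Or.inr rfl, ?_⟩
      rw [h] at h1
      rcases h' : w.getVert (2 * i + 1) with x | y
      · exact Finset.mem_image_of_mem _ (Finset.mem_univ _)
      · rw [h'] at h1
        simp at h1
  choose! g hg hx using hc
  have hinj : Set.InjOn (fun i => w.getVert (g i)) (Finset.range t : Set ℕ) := by
    intro i hi i' hi' hxx
    rw [Finset.mem_coe, Finset.mem_range] at hi hi'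
    have h3 := hg i hi
    have h4 := hg i' hi'
    have := hw.getVert_injOn' (by simp only [Set.mem_ofPred_eq]; omega)
      (by simp only [Set.mem_ofPred_eq]; omega) hxx
    omega
  have h5 : (Finset.range t).card ≤
      ((Finset.univ : Finset (Fin s)).image (Sum.inl : Fin s → Fin s ⊕ Fin N)).card :=
    Finset.card_le_card_of_injOn _ (fun i hi => hx i (Finset.mem_range.mp hi)) hinj
  have h6 : ((Finset.univ : Finset (Fin s)).image (Sum.inl : Fin s → Fin s ⊕ Fin N)).card ≤ s := by
    refine Finset.card_image_le.trans ?_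
    rw [Finset.card_univ, Fintype.card_fin]
  rw [Finset.card_range] at h5
  omega

/-- Number of edges of a complete bipartite graph. -/
theorem kbip_card (s N : ℕ) :
    (completeBipartiteGraph (Fin s) (Fin N)).edgeSet.ncard = s * N := by
  classical
  have h : (completeBipartiteGraph (Fin s) (Fin N)).edgeSet =
      Set.range (fun p : Fin s × Fin N => s((Sum.inl p.1 : Fin s ⊕ Fin N), Sum.inr p.2)) := by
    ext e
    induction e using Sym2.ind with
    | _ a b =>
      rw [SimpleGraph.mem_edgeSet, completeBipartiteGraph_adj, Set.mem_range]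
      constructor
      · rintro (⟨h1, h2⟩ | ⟨h1, h2⟩)
        · rcases a with a | a <;> rcases b with b | b <;> simp_all
        · rcases a with a | a <;> rcases b with b | b <;> simp_all
      · rintro ⟨⟨x, y⟩, hxy⟩
        rw [Sym2.eq_iff] at hxy
        rcases hxy with ⟨rfl, rfl⟩ | ⟨rfl, rfl⟩
        · left; simp
        · right; simp
  rw [h, ← Set.image_univ, Set.ncard_image_of_injective, Set.ncard_univ, Nat.card_eq_fintype_card,
    Fintype.card_prod, Fintype.card_fin, Fintype.card_fin]
  rintro ⟨x, y⟩ ⟨x', y'⟩ hxy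
  rw [Sym2.eq_iff] at hxy
  rcases hxy with ⟨h1, h2⟩ | ⟨h1, h2⟩
  · rw [Sum.inl.injEq] at h1
    rw [Sum.inr.injEq] at h2
    simp only at h1 h2
    rw [h1, h2]
  · simp at h1

/-- Acyclic graphs on `n` vertices contained in a connected graph have fewer than `n` edges. -/
theorem forest_card {V : Type*} [Finite V] {G F : SimpleGraph V} (hG : G.Connected) (hFG : F ≤ G)
    (hF : F.IsAcyclic) : F.edgeSet.ncard + 1 ≤ Nat.card V := by
  classical
  have := Fintype.ofFinite V
  obtain ⟨T, hFT, hTG, hT⟩ := hG.exists_isTree_le_of_le_of_isAcyclic hFG hF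
  have h1 : T.edgeSet.ncard + 1 = Nat.card V := by
    have h2 := hT.card_edgeFinset
    rw [Nat.card_eq_fintype_card, ← h2, ← Set.ncard_coe_finset, SimpleGraph.coe_edgeFinset]
  have h2 : F.edgeSet.ncard ≤ T.edgeSet.ncard :=
    Set.ncard_le_ncard (SimpleGraph.edgeSet_subset_edgeSet.mpr hFT) (Set.toFinite _)
  omega

theorem kbip_connected {s N : ℕ} (hs : 1 ≤ s) (hN : 1 ≤ N) :
    (completeBipartiteGraph (Fin s) (Fin N)).Connected := by
  have hl : ∀ x : Fin s, (completeBipartiteGraph (Fin s) (Fin N)).Adj (Sum.inl x)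
      (Sum.inr ⟨0, hN⟩) := fun x => by
    rw [completeBipartiteGraph_adj]; left; simp
  have hr : ∀ y : Fin N, (completeBipartiteGraph (Fin s) (Fin N)).Adj (Sum.inr y)
      (Sum.inl ⟨0, hs⟩) := fun y => by
    rw [completeBipartiteGraph_adj]; right; simp
  have key : ∀ a, (completeBipartiteGraph (Fin s) (Fin N)).Reachable a (Sum.inl ⟨0, hs⟩) := by
    rintro (x | y)
    · exact (hl x).reachable.trans (hr ⟨0, hN⟩).reachable
    · exact (hr y).reachable
  have : Nonempty (Fin s ⊕ Fin N) := ⟨Sum.inl ⟨0, hs⟩⟩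
  exact ⟨fun a b => (key a).trans (key b).symm⟩

/-- Every subgraph of `K_{s,N}` of girth larger than `2s` has at most `s + N - 1` edges. -/
theorem kbip_sharp {s N : ℕ} (hs : 1 ≤ s) (hN : 1 ≤ N) (H : SimpleGraph (Fin s ⊕ Fin N))
    (hH : H ≤ completeBipartiteGraph (Fin s) (Fin N))
    (hg : ∀ (v : Fin s ⊕ Fin N) (w : H.Walk v v), w.IsCycle → 2 * s < w.length) :
    H.edgeSet.ncard + 1 ≤ s + N := by
  have hac : H.IsAcyclic := by
    intro v w hw
    have h1 := hg v w hw
    have h2 := (kbip_cycles s N v (w.mapLe hH) ((Walk.isCycle_mapLe hH).mpr hw)).2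
    rw [Walk.length_mapLe] at h2
    omega
  have := forest_card (kbip_connected hs hN) hH hac
  rwa [Nat.card_eq_fintype_card, Fintype.card_sum, Fintype.card_fin, Fintype.card_fin] at this

end Pool.Agent.H49.Gap
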