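import Mathlib

/-!
Elementary surgery on walks and paths in a simple graph.
-/

namespace Pool.Agent.H49.Gap

open SimpleGraph

variable {V : Type*} {G : SimpleGraph V}

/-- An edge of a walk splits the walk. -/
theorem split_edge {a b : V} (p : G.Walk a b) {f : Sym2 V} (hf : f ∈ p.edges) :
    ∃ (c d : V) (h : G.Adj c d) (p₁ : G.Walk a c) (p₂ : G.Walk d b),
      f = s(c, d) ∧ p = p₁.append (Walk.cons h p₂) := by
  induction p with
  | nil => simp at hf
  | @cons u v w h p ih =>
    rw [Walk.edges_cons, List.mem_cons] at hf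
    rcases hf with hf | hf
    · exact ⟨u, v, h, Walk.nil, p, hf, rfl⟩
    · obtain ⟨c, d, h', p₁, p₂, h1, h2⟩ := ih hf
      exact ⟨c, d, h', Walk.cons h p₁, p₂, h1, by rw [h2]; rfl⟩

/-- The first vertex of a walk in a set. -/
theorem first_in (S : Set V) {a b : V} (p : G.Walk a b) (hp : ∃ z ∈ p.support, z ∈ S) :
    ∃ (x : V) (p₁ : G.Walk a x) (p₂ : G.Walk x b), x ∈ S ∧ p = p₁.append p₂ ∧
      ∀ z ∈ p₁.support, z ∈ S → z = x := by
  classical
  induction p with
  | nil =>
    obtain ⟨z, hz, hzS⟩ := hp
    rw [Walk.support_nil, List.mem_singleton] at hz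
    subst hz
    exact ⟨_, Walk.nil, Walk.nil, hzS, rfl, by simp⟩
  | @cons u v w h p ih =>
    by_cases hu : u ∈ S
    · exact ⟨u, Walk.nil, Walk.cons h p, hu, rfl, by simp⟩
    · obtain ⟨z, hz, hzS⟩ := hp
      have hz' : z ∈ p.support := by
        rw [Walk.support_cons, List.mem_cons] at hz
        rcases hz with rfl | hz
        · exact absurd hzS hu
        · exact hz
      obtain ⟨x, p₁, p₂, hx, hpp, hmin⟩ := ih ⟨z, hz', hzS⟩
      refine ⟨x, Walk.cons h p₁, p₂, hx, by rw [hpp]; rfl, ?_⟩
      intro y hy hyS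
      rw [Walk.support_cons, List.mem_cons] at hy
      rcases hy with rfl | hy
      · exact absurd hyS hu
      · exact hmin y hy hyS

/-- The last vertex of a walk in a set. -/
theorem last_in (S : Set V) {a b : V} (p : G.Walk a b) (hp : ∃ z ∈ p.support, z ∈ S) :
    ∃ (x : V) (p₁ : G.Walk a x) (p₂ : G.Walk x b), x ∈ S ∧ p = p₁.append p₂ ∧
      ∀ z ∈ p₂.support, z ∈ S → z = x := by
  obtain ⟨x, q₁, q₂, hx, hq, hmin⟩ := first_in S p.reverse (by simpa using hp)
  refine ⟨x, q₂.reverse, q₁.reverse, hx, ?_, ?_⟩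
  · have := congrArg Walk.reverse hq
    rwa [Walk.reverse_reverse, Walk.reverse_append] at this
  · intro z hz
    rw [Walk.support_reverse, List.mem_reverse] at hz
    exact hmin z hz

/-- Concatenation of two paths meeting only at the common end. -/
theorem append_isPath {a x b : V} {p : G.Walk a x} {q : G.Walk x b} (hp : p.IsPath)
    (hq : q.IsPath) (h : ∀ z ∈ p.support, z ∈ q.support → z = x) : (p.append q).IsPath := by
  rw [Walk.isPath_def, Walk.support_append]
  refine List.Nodup.append hp.support_nodup hq.support_nodup.tail ?_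
  intro z hz hz'
  have h1 : z = x := h z hz (List.mem_of_mem_tail hz')
  subst h1
  have h2 := hq.support_nodup
  rw [← Walk.cons_tail_support] at h2
  exact (List.nodup_cons.mp h2).1 hz'

/-- A path is cut in three by two distinct vertices of it. -/
theorem cut_three {a b x y : V} (p : G.Walk a b) (hx : x ∈ p.support) (hy : y ∈ p.support) :
    (∃ (p₁ : G.Walk a x) (p₂ : G.Walk x y) (p₃ : G.Walk y b), p = p₁.append (p₂.append p₃)) ∨
    (∃ (p₁ : G.Walk a y) (p₂ : G.Walk y x) (p₃ : G.Walk x b), p = p₁.append (p₂.append p₃)) := by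
  obtain ⟨q, r, rfl⟩ := Walk.mem_support_iff_exists_append.mp hx
  rw [Walk.mem_support_append_iff] at hy
  rcases hy with hy | hy
  · obtain ⟨q₁, q₂, rfl⟩ := Walk.mem_support_iff_exists_append.mp hy
    exact Or.inr ⟨q₁, q₂, r, by rw [Walk.append_assoc]⟩
  · obtain ⟨q₁, q₂, rfl⟩ := Walk.mem_support_iff_exists_append.mp hy
    exact Or.inl ⟨q, q₁, q₂, rfl⟩

/-- The support of a path cut in three parts. -/
theorem three_nodup {a x y b : V} {p₁ : G.Walk a x} {p₂ : G.Walk x y} {p₃ : G.Walk y b}
    (h : (p₁.append (p₂.append p₃)).IsPath) (hxy : x ≠ y) :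
    p₁.IsPath ∧ p₂.IsPath ∧ p₃.IsPath ∧ (∀ z ∈ p₁.support, z ∉ p₃.support) ∧
      (∀ z ∈ p₁.support, z ∈ p₂.support → z = x) ∧
      (∀ z ∈ p₂.support, z ∈ p₃.support → z = y) := by
  have h23 := h.of_append_right
  have hn := h.support_nodup
  rw [Walk.support_append, List.nodup_append'] at hn
  obtain ⟨_, _, hd⟩ := hn
  have hn2 := h23.support_nodup
  rw [Walk.support_append, List.nodup_append'] at hn2
  obtain ⟨_, _, hd2⟩ := hn2
  refine ⟨h.of_append_left, h23.of_append_left, h23.of_append_right, ?_, ?_, ?_⟩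
  · intro z hz hz3
    have hmem : z ∈ (p₂.append p₃).support.tail := by
      rw [Walk.tail_support_append, List.mem_append]
      rw [← Walk.cons_tail_support, List.mem_cons] at hz3
      rcases hz3 with rfl | hz3
      · left
        have : z ∈ p₂.support := p₂.end_mem_support
        rw [← Walk.cons_tail_support, List.mem_cons] at this
        rcases this with h' | h'
        · exact absurd h'.symm hxy
        · exact h'
      · exact Or.inr hz3
    exact hd hz hmem
  · intro z hz hz2
    by_contra hne
    have hmem : z ∈ (p₂.append p₃).support.tail := by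
      rw [Walk.tail_support_append, List.mem_append]
      rw [← Walk.cons_tail_support, List.mem_cons] at hz2
      rcases hz2 with h' | h'
      · exact absurd h' hne
      · exact Or.inl h'
    exact hd hz hmem
  · intro z hz2 hz3
    by_contra hne
    rw [← Walk.cons_tail_support, List.mem_cons] at hz3
    rcases hz3 with h' | h'
    · exact hne h'
    · exact hd2 hz2 h'

/-- Assembling three paths. -/
theorem assemble {a x y b : V} {p₁ : G.Walk a x} {p₂ : G.Walk x y} {p₃ : G.Walk y b}
    (h1 : p₁.IsPath) (h2 : p₂.IsPath) (h3 : p₃.IsPath) (h13 : ∀ z ∈ p₁.support, z ∉ p₃.support)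
    (h12 : ∀ z ∈ p₁.support, z ∈ p₂.support → z = x)
    (h23 : ∀ z ∈ p₂.support, z ∈ p₃.support → z = y) :
    (p₁.append (p₂.append p₃)).IsPath := by
  refine append_isPath h1 (append_isPath h2 h3 h23) ?_
  intro z hz hz'
  rw [Walk.mem_support_append_iff] at hz'
  rcases hz' with h' | h'
  · exact h12 z hz h'
  · exact absurd h' (h13 z hz)

/-- Arc lemma: on a cycle (an edge `cd` together with a path from `c` to `d`), two distinct vertices
are joined by an arc through any prescribed edge. -/
theorem arc {c d x y : V} (hcd : G.Adj c d) (q : G.Walk c d) (hq : q.IsPath)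
    (hx : x ∈ q.support) (hy : y ∈ q.support) (hxy : x ≠ y) {g : Sym2 V}
    (hg : g ∈ q.edges ∨ g = s(c, d)) :
    ∃ A : G.Walk x y, A.IsPath ∧ (∀ z ∈ A.support, z ∈ q.support) ∧ g ∈ A.edges := by
  -- the ordered version
  have key : ∀ (x y : V), x ≠ y → (∃ (p₁ : G.Walk c x) (p₂ : G.Walk x y) (p₃ : G.Walk y d),
      q = p₁.append (p₂.append p₃)) →
      ∃ A : G.Walk x y, A.IsPath ∧ (∀ z ∈ A.support, z ∈ q.support) ∧ g ∈ A.edges := by
    rintro x y hxy ⟨p₁, p₂, p₃, rfl⟩
    obtain ⟨h1, h2, h3, h13, h12, h23⟩ := three_nodup hq hxy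
    by_cases hg2 : g ∈ p₂.edges
    · refine ⟨p₂, h2, ?_, hg2⟩
      intro z hz
      simp only [Walk.mem_support_append_iff]
      exact Or.inr (Or.inl hz)
    · refine ⟨p₁.reverse.append (Walk.cons hcd p₃.reverse), ?_, ?_, ?_⟩
      · refine append_isPath (Walk.IsPath.reverse h1) ?_ ?_
        · rw [Walk.cons_isPath_iff]
          refine ⟨Walk.IsPath.reverse h3, ?_⟩
          rw [Walk.support_reverse, List.mem_reverse]
          exact h13 c p₁.start_mem_support
        · intro z hz hz'
          rw [Walk.support_reverse, List.mem_reverse] at hz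
          rw [Walk.support_cons, List.mem_cons, Walk.support_reverse, List.mem_reverse] at hz'
          rcases hz' with h' | h'
          · exact h'
          · exact absurd h' (h13 z hz)
      · intro z hz
        simp only [Walk.mem_support_append_iff, Walk.support_reverse, List.mem_reverse,
          Walk.support_cons, List.mem_cons] at hz ⊢
        rcases hz with hz | rfl | hz
        · exact Or.inl hz
        · exact Or.inl p₁.start_mem_support
        · exact Or.inr (Or.inr hz)
      · simp only [Walk.edges_append, Walk.edges_reverse, Walk.edges_cons, List.mem_append,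
          List.mem_reverse, List.mem_cons] at hg ⊢
        tauto
  rcases cut_three q hx hy with h | h
  · exact key x y hxy h
  · obtain ⟨A, hA, hs, hgA⟩ := key y x hxy.symm h
    refine ⟨A.reverse, Walk.IsPath.reverse hA, ?_, ?_⟩
    · intro z hz
      rw [Walk.support_reverse, List.mem_reverse] at hz
      exact hs z hz
    · rw [Walk.edges_reverse, List.mem_reverse]
      exact hgA

/-- Cutting a walk at the vertex with a given number. -/
theorem cut_index {a b x : V} (p : G.Walk a b) (i : ℕ) (hi : i ≤ p.length)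
    (hx : p.getVert i = x) :
    ∃ (p₁ : G.Walk a x) (p₂ : G.Walk x b), p = p₁.append p₂ ∧ p₁.length = i := by
  induction p generalizing i with
  | nil =>
    rw [Walk.length_nil] at hi
    obtain rfl : i = 0 := by omega
    rw [Walk.getVert_zero] at hx
    subst hx
    exact ⟨Walk.nil, Walk.nil, rfl, rfl⟩
  | @cons u v w h p ih =>
    rcases i with _ | i
    · rw [Walk.getVert_zero] at hx
      subst hx
      exact ⟨Walk.nil, Walk.cons h p, rfl, rfl⟩
    · rw [Walk.length_cons] at hi
      rw [Walk.getVert_cons_succ] at hx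
      obtain ⟨p₁, p₂, h1, h2⟩ := ih i (by omega) hx
      exact ⟨Walk.cons h p₁, p₂, by rw [h1]; rfl, by rw [Walk.length_cons, h2]⟩

/-- Cutting a walk at the vertices with two given numbers. -/
theorem cut_index_two {a b x y : V} (p : G.Walk a b) (i j : ℕ) (hij : i ≤ j) (hj : j ≤ p.length)
    (hx : p.getVert i = x) (hy : p.getVert j = y) :
    ∃ (p₁ : G.Walk a x) (p₂ : G.Walk x y) (p₃ : G.Walk y b),
      p = p₁.append (p₂.append p₃) ∧ p₁.length = i ∧ p₂.length + i = j := by
  obtain ⟨p₁, q, rfl, hl⟩ := cut_index p i (by omega) hx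
  rw [Walk.length_append] at hj
  rw [Walk.getVert_append, if_neg (by omega), hl] at hy
  obtain ⟨p₂, p₃, rfl, hl2⟩ := cut_index q (j - i) (by omega) hy
  exact ⟨p₁, p₂, p₃, rfl, hl, by omega⟩

end Pool.Agent.H49.Gap
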